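import Mathlib
import Pool.Agent.Lib_helper80.CS.Defs

/-! CS block C8: closure (helper44) -/

set_option autoImplicit false

namespace Pool.Agent.CS

open Finset

/-- the values of `f` on the finite subsets of `{t < g}` are countable -/
theorem c8_count {V Ω : Type} [LinearOrder Ω] (t : V → Ω)
    (hc : ∀ z : Ω, {x | t x < z}.Countable) (f : ℕ → Finset V → Option V) (g : Ω) :
    {z : Ω | z = g ∨ ∃ (k : ℕ) (N : Finset V), (∀ w ∈ N, t w < g) ∧
      ∃ y, f k N = some y ∧ t y = z}.Countable := by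
  have h1 : {N : Finset V | (N : Set V) ⊆ {x | t x < g}}.Countable := by
    have h := Set.countable_ofPred_finite_subset (hc g)
    have hinj : Set.InjOn (fun N : Finset V => (N : Set V))
        {N : Finset V | (N : Set V) ⊆ {x | t x < g}} := by
      intro a _ b _ hab
      exact Finset.coe_injective hab
    apply Set.MapsTo.countable_of_injOn (t := {t' : Set V | t'.Finite ∧ t' ⊆ {x | t x < g}})
      (f := fun N : Finset V => (N : Set V)) _ hinj h
    intro N hN
    exact ⟨N.finite_toSet, hN⟩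
  have h2 : (⋃ k : ℕ, ⋃ N ∈ {N : Finset V | (N : Set V) ⊆ {x | t x < g}},
      {z : Ω | ∃ y, f k N = some y ∧ t y = z}).Countable := by
    apply Set.countable_iUnion
    intro k
    apply h1.biUnion
    intro N _
    apply Set.Subsingleton.countable
    rintro z ⟨y, hy, rfl⟩ z' ⟨y', hy', rfl⟩
    rw [hy] at hy'
    rw [Option.some.inj hy']
  refine ((Set.countable_singleton g).union h2).mono ?_
  rintro z (rfl | ⟨k, N, hN, y, hy, rfl⟩)
  · exact Or.inl rfl
  · refine Or.inr ?_
    rw [Set.mem_iUnion]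
    refine ⟨k, ?_⟩
    rw [Set.mem_iUnion₂]
    exact ⟨N, fun w hw => hN w (Finset.mem_coe.1 hw), y, hy, rfl⟩

theorem closure {V Ω : Type} [LinearOrder Ω] [WellFoundedLT Ω]
    (hb : ∀ S : Set Ω, S.Countable → ∃ b, ∀ x ∈ S, x < b) (t : V → Ω)
    (hc : ∀ z : Ω, {x | t x < z}.Countable) (f : ℕ → Finset V → Option V) (g0 : Ω) :
    ∃ g, g0 ≤ g ∧ ∀ k (N : Finset V), (∀ w ∈ N, t w < g) → ∀ y, f k N = some y → t y < g := by
  have hB : ∀ g : Ω, ∃ b : Ω, g < b ∧ ∀ (k : ℕ) (N : Finset V), (∀ w ∈ N, t w < g) →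
      ∀ y, f k N = some y → t y < b := by
    intro g
    obtain ⟨b, hb1⟩ := hb _ (c8_count t hc f g)
    exact ⟨b, hb1 g (Or.inl rfl), fun k N hN y hy => hb1 _ (Or.inr ⟨k, N, hN, y, hy, rfl⟩)⟩
  choose B hB1 hB2 using hB
  set G : ℕ → Ω := fun n => Nat.rec g0 (fun _ g => B g) n with hG
  have hG0 : G 0 = g0 := rfl
  have hGs : ∀ n, G (n + 1) = B (G n) := fun n => rfl
  have hmono : StrictMono G := strictMono_nat_of_lt_succ fun n => by
    rw [hGs]
    exact hB1 (G n)
  have hne : {b : Ω | ∀ n, G n < b}.Nonempty := by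
    obtain ⟨b, hb1⟩ := hb (Set.range G) (Set.countable_range G)
    exact ⟨b, fun n => hb1 _ ⟨n, rfl⟩⟩
  set g := WellFounded.min (wellFounded_lt (α := Ω)) _ hne with hg
  have hgmem : ∀ n, G n < g := WellFounded.min_mem (wellFounded_lt (α := Ω)) _ hne
  have hlt : ∀ z, z < g → ∃ n, z < G n := by
    intro z hz
    by_contra hcon
    push Not at hcon
    have hzm : z ∈ {b : Ω | ∀ n, G n < b} := by
      intro n
      exact lt_of_lt_of_le (hmono (Nat.lt_succ_self n)) (hcon (n + 1))
    exact WellFounded.not_lt_min (wellFounded_lt (α := Ω)) _ hzm hz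
  refine ⟨g, (hG0 ▸ hgmem 0).le, ?_⟩
  intro k N hN y hy
  have hN' : ∃ n, ∀ w ∈ N, t w < G n := by
    clear hy
    classical
    induction N using Finset.induction_on with
    | empty => exact ⟨0, fun w hw => absurd hw (Finset.notMem_empty w)⟩
    | insert a N _ ih =>
      obtain ⟨n, hn⟩ := ih fun w hw => hN w (Finset.mem_insert_of_mem hw)
      obtain ⟨n', hn'⟩ := hlt _ (hN a (Finset.mem_insert_self a N))
      refine ⟨max n n', fun w hw => ?_⟩
      rcases Finset.mem_insert.1 hw with rfl | hw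
      · exact lt_of_lt_of_le hn' (hmono.monotone (le_max_right n n'))
      · exact lt_of_lt_of_le (hn w hw) (hmono.monotone (le_max_left n n'))
  obtain ⟨n, hn⟩ := hN'
  have h1 := hB2 (G n) k N hn y hy
  rw [← hGs] at h1
  exact h1.trans (hgmem (n + 1))

end Pool.Agent.CS
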