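import Mathlib
import Pool.Agent.Lib_helper80.CS.Defs

/-!
# The guessing family from CH
-/

set_option autoImplicit false

namespace Pool.Agent.CS

/-- functions on a countable set -/
lemma c10_card (hCH : Cardinal.continuum.{0} = Cardinal.aleph 1) (S : Type) [Countable S] :
    Cardinal.mk (ℕ → Finset S → Option S) ≤ Cardinal.aleph 1 := by
  have h1 : Cardinal.mk (Option S) ≤ Cardinal.aleph0 := Cardinal.mk_le_aleph0
  have h2 : Cardinal.mk (Finset S) ≤ Cardinal.aleph0 := Cardinal.mk_le_aleph0
  have h3 : Cardinal.mk (ℕ → Finset S → Option S) =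
      (Cardinal.mk (Option S) ^ Cardinal.mk (Finset S)) ^ Cardinal.mk ℕ := rfl
  rw [h3, Cardinal.mk_nat]
  calc (Cardinal.mk (Option S) ^ Cardinal.mk (Finset S)) ^ Cardinal.aleph0
      ≤ (Cardinal.aleph0 ^ Cardinal.mk (Finset S)) ^ Cardinal.aleph0 :=
        Cardinal.power_le_power_right (Cardinal.power_le_power_right h1)
    _ ≤ (Cardinal.aleph0 ^ Cardinal.aleph0) ^ Cardinal.aleph0 :=
        Cardinal.power_le_power_right
          (Cardinal.power_le_power_left Cardinal.aleph0_ne_zero h2)
    _ = Cardinal.aleph 1 := by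
        rw [← Cardinal.power_mul, Cardinal.aleph0_mul_aleph0,
          Cardinal.aleph0_power_aleph0, hCH]

/-- all the data below `g` -/
abbrev c10_P {V Ω : Type} [LinearOrder Ω] (t : V → Ω) : Type :=
  Σ g : Ω, (ℕ → Finset {x : V // t x < g} → Option {x : V // t x < g})

lemma c10_P_card (hCH : Cardinal.continuum.{0} = Cardinal.aleph 1) {V Ω : Type}
    [LinearOrder Ω] (hΩ : Cardinal.mk Ω = Cardinal.aleph 1) (t : V → Ω)
    (hc : ∀ z : Ω, {x | t x < z}.Countable) :
    Cardinal.mk (c10_P t) ≤ Cardinal.mk Ω := by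
  rw [Cardinal.mk_sigma]
  have h1 : ∀ g : Ω, Cardinal.mk (ℕ → Finset {x : V // t x < g} → Option {x : V // t x < g}) ≤
      Cardinal.aleph 1 := by
    intro g
    have : Countable {x : V // t x < g} := (hc g).to_subtype
    exact c10_card hCH _
  calc Cardinal.sum (fun g : Ω =>
        Cardinal.mk (ℕ → Finset {x : V // t x < g} → Option {x : V // t x < g}))
      ≤ Cardinal.sum (fun _ : Ω => Cardinal.aleph.{0} 1) := Cardinal.sum_le_sum _ _ h1
    _ = Cardinal.mk Ω * Cardinal.aleph 1 := Cardinal.sum_const' _ _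
    _ = Cardinal.mk Ω := by
        rw [hΩ]
        exact Cardinal.mul_eq_self (Cardinal.aleph0_le_aleph 1)

open Classical in
/-- the candidate of the data -/
noncomputable def c10_val {V Ω : Type} [LinearOrder Ω] (t : V → Ω) (p : c10_P t) : Cand V Ω :=
  (p.1, fun k N => if ∀ w ∈ N, t w < p.1 then
      (p.2 k (N.subtype (fun x => t x < p.1))).map Subtype.val
    else none)

/-- BLOCK C10. The guessing family from CH. -/
theorem guess_exists (hCH : Cardinal.continuum.{0} = Cardinal.aleph 1) {V Ω : Type}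
    [LinearOrder Ω] (hΩ : Cardinal.mk Ω = Cardinal.aleph 1) (t : V → Ω)
    (hc : ∀ z : Ω, {x | t x < z}.Countable) :
    ∃ c : Ω → Cand V Ω, ∀ (g : Ω) (f : ℕ → Finset V → Option V), ∃ ξ, (c ξ).1 = g ∧
      ∀ k N, (∀ w ∈ N, t w < g) → (∀ y, f k N = some y → t y < g) → (c ξ).2 k N = f k N := by
  classical
  have hΩ0 : Nonempty Ω := by
    rw [← Cardinal.mk_ne_zero_iff, hΩ]
    exact (Cardinal.aleph_pos 1).ne'
  obtain ⟨i⟩ : Nonempty (c10_P t ↪ Ω) := (Cardinal.le_def _ _).mp (c10_P_card hCH hΩ t hc)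
  have hP : Nonempty (c10_P t) := ⟨⟨hΩ0.some, fun _ _ => none⟩⟩
  have hsurj : Function.Surjective (Function.invFun i) := Function.invFun_surjective i.injective
  refine ⟨fun ξ => c10_val t (Function.invFun i ξ), ?_⟩
  intro g f
  obtain ⟨ξ, hξ⟩ := hsurj ⟨g, fun k N' =>
    if h : ∃ y, f k (N'.map (Function.Embedding.subtype _)) = some y ∧ t y < g then
      some ⟨h.choose, h.choose_spec.2⟩ else none⟩
  refine ⟨ξ, ?_, ?_⟩
  · simp only [hξ, c10_val]
  · intro k N hN hy
    simp only [hξ]
    unfold c10_val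
    simp only
    rw [if_pos hN]
    have hmap : (N.subtype (fun x => t x < g)).map (Function.Embedding.subtype _) = N :=
      Finset.subtype_map_of_mem hN
    rw [hmap]
    cases hf : f k N with
    | none =>
      rw [dif_neg (by simp)]
      rfl
    | some y =>
      have hex : ∃ y', some y = some y' ∧ t y' < g := ⟨y, rfl, hy y hf⟩
      rw [dif_pos hex]
      simp only [Option.map_some]
      exact hex.choose_spec.1.symm

end Pool.Agent.CS
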