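import Mathlib
import Pool.Agent.Lib_helper80.CS.Defs

set_option autoImplicit false

namespace Pool.Agent.CS

open Finset

theorem rec_exists {V Ω X : Type} [LinearOrder Ω] [WellFoundedLT Ω] [Inhabited X] (t : V → Ω)
    (F : V → (V → X) → X)
    (hF : ∀ x a b, (∀ y, t y < t x → a y = b y) → F x a = F x b) :
    ∃ a : V → X, ∀ x, a x = F x a := by
  classical
  have wf : WellFounded (fun y x : V => t y < t x) := InvImage.wf t wellFounded_lt
  refine ⟨wf.fix (fun x rec => F x (fun y => if h : t y < t x then rec y h else default)),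
    fun x => ?_⟩
  rw [wf.fix_eq]
  apply hF
  intro y hy
  simp [hy]

end Pool.Agent.CS
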