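import Mathlib
import Pool.Agent.Lib_helper80.CS.Defs

set_option autoImplicit false

namespace Pool.Agent.CS

open Finset

section Out

variable {V Ω : Type} [DecidableEq V] [LinearOrder Ω]

theorem c2_lt {t : V → Ω} {m : V → ℕ} {a : V → Finset V × ℕ} {x : V} {c : Cand V Ω}
    {N : Finset V} {y : V} (h : prop t m a x c N = some y) : t y < t x := by
  unfold prop at h
  split at h
  · simp at h
  · split_ifs at h with h1
    simp only [Option.some.injEq] at h
    rw [← h]
    exact h1.1

theorem prop_congr (t : V → Ω) (m : V → ℕ) (a b : V → Finset V × ℕ) (x : V)
    (h : ∀ y, t y < t x → a y = b y) (c : Cand V Ω) (N : Finset V) :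
    prop t m a x c N = prop t m b x c N := by
  unfold prop
  cases hc : c.2 (m x) N with
  | none => rfl
  | some y =>
    by_cases hy : t y < t x
    · simp only [h y hy]
    · simp [hy]

theorem PR_congr (t : V → Ω) (m : V → ℕ) (a b : V → Finset V × ℕ) (x : V)
    (h : ∀ y, t y < t x → a y = b y) (l : List (Cand V Ω)) (N : Finset V) :
    PR t m a x l N = PR t m b x l N := by
  induction l generalizing N with
  | nil => rfl
  | cons c l ih =>
    have e := prop_congr t m a b x h c N
    unfold PR
    rw [e]
    cases hp : prop t m b x c N with
    | none => exact ih N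
    | some y =>
      have hy := h y (c2_lt hp)
      simp only [hy, ih]

theorem run_congr (t : V → Ω) (m : V → ℕ) (a b : V → Finset V × ℕ) (x : V)
    (h : ∀ y, t y < t x → a y = b y) (u : ℕ) (l : List (Cand V Ω)) (N : Finset V) :
    run t m a x u l N = run t m b x u l N := by
  induction l generalizing N with
  | nil => rfl
  | cons c l ih =>
    have e := prop_congr t m a b x h c N
    unfold run
    rw [e]
    cases hp : prop t m b x c N with
    | none => exact ih N
    | some y =>
      have hy := h y (c2_lt hp)
      simp only [hy, ih]

theorem PR_card (t : V → Ω) (m : V → ℕ) (a : V → Finset V × ℕ) (x : V) (l : List (Cand V Ω))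
    (N : Finset V) : (PR t m a x l N).card + 1 ≤ 2 ^ l.length := by
  induction l generalizing N with
  | nil => simp [PR]
  | cons c l ih =>
    unfold PR
    rw [List.length_cons, pow_succ]
    cases hp : prop t m a x c N with
    | none =>
      have := ih N
      simp only
      omega
    | some y =>
      simp only
      have h1 := ih N
      have h2 := ih (insert y (a y).1)
      have h3 := Finset.card_insert_le (a y).2 (PR t m a x l N ∪ PR t m a x l (insert y (a y).1))
      have h4 := Finset.card_union_le (PR t m a x l N) (PR t m a x l (insert y (a y).1))
      omega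

end Out

end Pool.Agent.CS
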