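import Mathlib
import Pool.Agent.Lib_helper80.CS.Defs

/-! BLOCK C3: the run of the candidates keeps the chain good and bounded. -/

set_option autoImplicit false

namespace Pool.Agent.CS

open Finset

section Out

variable {V Ω : Type} [DecidableEq V] [LinearOrder Ω]

/-- BLOCK C3. The good chains for `x` (rank `u`): all elements are earlier, of the same level, of smaller rank,
closed downwards, linearly ordered. -/
def Gd (t : V → Ω) (m : V → ℕ) (a : V → Finset V × ℕ) (x : V) (u : ℕ) (N : Finset V) : Prop :=
  (∀ y ∈ N, t y < t x ∧ m y = m x ∧ (a y).2 < u ∧ (a y).1 ⊆ N) ∧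
    ∀ y ∈ N, ∀ y' ∈ N, y = y' ∨ y ∈ (a y').1 ∨ y' ∈ (a y).1

theorem c3_prop {t : V → Ω} {m : V → ℕ} {a : V → Finset V × ℕ} {x : V} {c : Cand V Ω}
    {N : Finset V} {y : V} (h : prop t m a x c N = some y) :
    t y < t x ∧ m y = m x ∧ N ⊆ (a y).1 ∧ ∀ w ∈ insert y N, t w < c.1 := by
  unfold prop at h
  split at h
  · exact absurd h (by simp)
  · rename_i z hz
    split_ifs at h with hc
    have hzy : z = y := by simpa using h
    subst hzy
    exact hc

theorem c3_step (t : V → Ω) (m : V → ℕ) (a : V → Finset V × ℕ) (x : V) (u : ℕ)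
    (ha : ∀ y, t y < t x → Gd t m a y (a y).2 (a y).1) (y : V) (hy : t y < t x)
    (hm : m y = m x) (hu : (a y).2 < u) : Gd t m a x u (insert y (a y).1) := by
  obtain ⟨h1, h2⟩ := ha y hy
  refine ⟨?_, ?_⟩
  · intro z hz
    rcases Finset.mem_insert.1 hz with rfl | hz
    · exact ⟨hy, hm, hu, Finset.subset_insert _ _⟩
    · obtain ⟨e1, e2, e3, e4⟩ := h1 z hz
      exact ⟨e1.trans hy, e2.trans hm, e3.trans hu, e4.trans (Finset.subset_insert _ _)⟩
  · intro z hz z' hz'
    rcases Finset.mem_insert.1 hz with e | hz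
    · rcases Finset.mem_insert.1 hz' with e' | hz'
      · exact Or.inl (e.trans e'.symm)
      · exact Or.inr (Or.inr (e ▸ hz'))
    · rcases Finset.mem_insert.1 hz' with e' | hz'
      · exact Or.inr (Or.inl (e' ▸ hz))
      · exact h2 z hz z' hz'

/-- a good chain stays good, if all earlier vertices `y` have good neighbourhoods; it grows. Induction on the list;
one step: `N ↦ insert y (a y).1`, `y` the proposal, `(a y).2 < u`, `N ⊆ (a y).1`. -/
theorem run_good (t : V → Ω) (m : V → ℕ) (a : V → Finset V × ℕ) (x : V) (u : ℕ)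
    (ha : ∀ y, t y < t x → Gd t m a y (a y).2 (a y).1) (l : List (Cand V Ω)) (N : Finset V)
    (hN : Gd t m a x u N) :
    Gd t m a x u (run t m a x u l N) ∧ N ⊆ run t m a x u l N := by
  induction l generalizing N with
  | nil => exact ⟨hN, Finset.Subset.refl _⟩
  | cons c l ih =>
    rw [run]
    split
    · exact ih N hN
    · rename_i y hy
      obtain ⟨h1, h2, h3, -⟩ := c3_prop hy
      split_ifs with hu
      · obtain ⟨g1, g2⟩ := ih (insert y (a y).1) (c3_step t m a x u ha y h1 h2 hu)
        exact ⟨g1, (h3.trans (Finset.subset_insert _ _)).trans g2⟩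
      · exact ih N hN

/-- the elements of the chain come from the bounds of the candidates (same induction; elements of
`(a y).1` have smaller times than `y` by `ha`) -/
theorem run_bound (t : V → Ω) (m : V → ℕ) (a : V → Finset V × ℕ) (x : V) (u : ℕ)
    (ha : ∀ y, t y < t x → Gd t m a y (a y).2 (a y).1) (l : List (Cand V Ω)) (N : Finset V)
    (g : Ω) (hN : ∀ w ∈ N, t w < g) (hl : ∀ c ∈ l, c.1 ≤ g) :
    ∀ w ∈ run t m a x u l N, t w < g := by
  induction l generalizing N with
  | nil => exact hN
  | cons c l ih =>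
    have hl' : ∀ d ∈ l, d.1 ≤ g := fun d hd => hl d (List.mem_cons_of_mem _ hd)
    rw [run]
    split
    · exact ih N hN hl'
    · rename_i y hy
      obtain ⟨h1, -, -, h4⟩ := c3_prop hy
      split_ifs with hu
      · refine ih (insert y (a y).1) ?_ hl'
        have hyg : t y < g := (h4 y (Finset.mem_insert_self _ _)).trans_le
          (hl c List.mem_cons_self)
        intro w hw
        rcases Finset.mem_insert.1 hw with rfl | hw
        · exact hyg
        · exact (((ha y h1).1 w hw).1).trans hyg
      · exact ih N hN hl'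

end Out

end Pool.Agent.CS
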