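import Mathlib
import Pool.Agent.Lib_helper80.CS.Defs
import Pool.Agent.Lib_helper80.CS.F.C3

/-! Block C4: capture. -/

set_option autoImplicit false

namespace Pool.Agent.CS

open Finset

section Out

variable {V Ω : Type} [DecidableEq V] [LinearOrder Ω]

theorem c4_nil (t : V → Ω) (m : V → ℕ) (a : V → Finset V × ℕ) (x : V) (u : ℕ)
    (ha : ∀ y, t y < t x → Gd t m a y (a y).2 (a y).1) (l2 : List (Cand V Ω))
    (c : Cand V Ω) (N : Finset V) (hN : Gd t m a x u N) (y : V)
    (hy : prop t m a x c N = some y) :
    (a y).2 ∈ PR t m a x (c :: l2) N ∧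
      ((a y).2 < u → y ∈ run t m a x u (c :: l2) N) := by
  constructor
  · simp only [PR, hy]
    exact Finset.mem_insert_self _ _
  · intro hlt
    have h1 := (run_good t m a x u ha [c] N hN).1
    simp only [run, hy, if_pos hlt] at h1
    have h2 := (run_good t m a x u ha l2 _ h1).2
    simp only [run, hy, if_pos hlt]
    exact h2 (Finset.mem_insert_self _ _)

/-- BLOCK C4. -/
theorem run_capture (t : V → Ω) (m : V → ℕ) (a : V → Finset V × ℕ) (x : V) (u : ℕ)
    (ha : ∀ y, t y < t x → Gd t m a y (a y).2 (a y).1) (l1 l2 : List (Cand V Ω))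
    (c : Cand V Ω) (N : Finset V) (hN : Gd t m a x u N) (y : V)
    (hy : prop t m a x c (run t m a x u l1 N) = some y) :
    (a y).2 ∈ PR t m a x (l1 ++ c :: l2) N ∧
      ((a y).2 < u → y ∈ run t m a x u (l1 ++ c :: l2) N) := by
  induction l1 generalizing N with
  | nil =>
    rw [List.nil_append]
    exact c4_nil t m a x u ha l2 c N hN y (by simpa only [run] using hy)
  | cons d l1 ih =>
    rw [List.cons_append]
    rcases hp : prop t m a x d N with _ | y'
    · simp only [run, hp] at hy
      simp only [PR, run, hp]
      exact ih N hN hy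
    · by_cases hlt : (a y').2 < u
      · simp only [run, hp, if_pos hlt] at hy
        have h1 := (run_good t m a x u ha [d] N hN).1
        simp only [run, hp, if_pos hlt] at h1
        have h2 := ih _ h1 hy
        simp only [PR, run, hp, if_pos hlt]
        exact ⟨Finset.mem_insert_of_mem (Finset.mem_union_right _ h2.1), h2.2⟩
      · simp only [run, hp, if_neg hlt] at hy
        have h2 := ih _ hN hy
        simp only [PR, run, hp, if_neg hlt]
        exact ⟨Finset.mem_insert_of_mem (Finset.mem_union_left _ h2.1), h2.2⟩

end Out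

end Pool.Agent.CS
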