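import Mathlib
import Pool.Agent.Lib_helper80.CS.Defs
import Pool.Agent.Lib_helper80.CS.F.C1
import Pool.Agent.Lib_helper80.CS.F.C2
import Pool.Agent.Lib_helper80.CS.F.C3
import Pool.Agent.Lib_helper80.CS.F.C4

/-! CS block C5: the forest (helper73) -/

set_option autoImplicit false

namespace Pool.Agent.CS

open Finset

/-- the least number outside a finite set -/
noncomputable def c5_mex (S : Finset ℕ) : ℕ := Nat.find (Infinite.exists_notMem_finset S)

theorem c5_mex_notMem (S : Finset ℕ) : c5_mex S ∉ S :=
  Nat.find_spec (Infinite.exists_notMem_finset S)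

theorem c5_mex_le (S : Finset ℕ) : c5_mex S ≤ S.card := by
  have h : Finset.range (c5_mex S) ⊆ S := by
    intro i hi
    by_contra hc
    exact Nat.find_min (Infinite.exists_notMem_finset S) (Finset.mem_range.1 hi) hc
  have := Finset.card_le_card h
  rwa [Finset.card_range] at this

section Out

variable {V Ω : Type} [DecidableEq V] [LinearOrder Ω]

theorem c5_append (t : V → Ω) (m : V → ℕ) (a : V → Finset V × ℕ) (x : V) (u : ℕ)
    (l1 l2 : List (Cand V Ω)) (N : Finset V) :
    run t m a x u (l1 ++ l2) N = run t m a x u l2 (run t m a x u l1 N) := by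
  induction l1 generalizing N with
  | nil => rfl
  | cons c l ih =>
    have e : ∀ l' : List (Cand V Ω), run t m a x u (c :: l') N =
        (match prop t m a x c N with
          | none => run t m a x u l' N
          | some y => if (a y).2 < u then run t m a x u l' (insert y (a y).1)
              else run t m a x u l' N) := fun _ => rfl
    rw [List.cons_append, e (l ++ l2), e l]
    cases prop t m a x c N with
    | none => exact ih N
    | some y =>
      dsimp only
      split_ifs
      · exact ih _
      · exact ih _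

theorem exists_out [WellFoundedLT Ω] (t : V → Ω) (m : V → ℕ) (l : V → List (Cand V Ω)) :
    ∃ (out : V → Finset V) (rk : V → ℕ), Forest t m out rk ∧ (∀ x, rk x < 2 ^ (l x).length) ∧
      ∀ x l1 c l2, l x = l1 ++ c :: l2 → (∀ d ∈ l1, d.1 ≤ c.1) →
        ∃ N : Finset V, N ⊆ out x ∧ (∀ w ∈ N, t w < c.1) ∧
          ∀ y, c.2 (m x) N = some y → t y < t x → t y < c.1 → m y = m x → N ⊆ out y →
            rk y ≠ rk x ∧ (rk y < rk x → y ∈ out x) := by
  obtain ⟨a, ha⟩ := rec_exists (X := Finset V × ℕ) t
    (fun x a => (run t m a x (c5_mex (PR t m a x (l x) ∅)) (l x) ∅,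
      c5_mex (PR t m a x (l x) ∅))) (by
    intro x a b h
    have h1 := PR_congr t m a b x h (l x) ∅
    have h2 := run_congr t m a b x h (c5_mex (PR t m b x (l x) ∅)) (l x) ∅
    show (run t m a x (c5_mex (PR t m a x (l x) ∅)) (l x) ∅,
      c5_mex (PR t m a x (l x) ∅)) = (run t m b x (c5_mex (PR t m b x (l x) ∅)) (l x) ∅,
      c5_mex (PR t m b x (l x) ∅))
    rw [h1, h2])
  have ha2 : ∀ x, (a x).2 = c5_mex (PR t m a x (l x) ∅) := fun x => congrArg Prod.snd (ha x)
  have ha1 : ∀ x, (a x).1 = run t m a x (a x).2 (l x) ∅ := by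
    intro x
    rw [ha2 x]
    exact congrArg Prod.fst (ha x)
  have hempty : ∀ x u, Gd t m a x u ∅ := by
    intro x u
    refine ⟨fun y hy => absurd hy (Finset.notMem_empty y), fun y hy => absurd hy (Finset.notMem_empty y)⟩
  have hgood : ∀ x, Gd t m a x (a x).2 (a x).1 := by
    have key : ∀ s : Ω, ∀ x, t x = s → Gd t m a x (a x).2 (a x).1 := by
      intro s
      induction s using WellFoundedLT.induction with
      | ind s ih =>
        intro x hx
        have h1 : ∀ y, t y < t x → Gd t m a y (a y).2 (a y).1 := fun y hy =>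
          ih (t y) (by rw [← hx]; exact hy) y rfl
        have h2 := (run_good t m a x (a x).2 h1 (l x) ∅ (hempty x _)).1
        rw [← ha1 x] at h2
        exact h2
    exact fun x => key (t x) x rfl
  refine ⟨fun x => (a x).1, fun x => (a x).2, ⟨?_, ?_, ?_, ?_, ?_⟩, ?_, ?_⟩
  · exact fun x y hy => ((hgood x).1 y hy).1
  · exact fun x y hy => ((hgood x).1 y hy).2.1
  · exact fun x y hy => ((hgood x).1 y hy).2.2.1
  · exact fun x y hy => ((hgood x).1 y hy).2.2.2
  · exact fun x y hy y' hy' => (hgood x).2 y hy y' hy'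
  · intro x
    show (a x).2 < _
    rw [ha2 x]
    have h1 := PR_card t m a x (l x) ∅
    have h2 := c5_mex_le (PR t m a x (l x) ∅)
    omega
  · intro x l1 c l2 hl hd
    have hg : ∀ y, t y < t x → Gd t m a y (a y).2 (a y).1 := fun y _ => hgood y
    obtain ⟨g1, g2⟩ := run_good t m a x (a x).2 hg l1 ∅ (hempty x _)
    have g3 := (run_good t m a x (a x).2 hg (c :: l2) _ g1).2
    have hout : (a x).1 = run t m a x (a x).2 (c :: l2) (run t m a x (a x).2 l1 ∅) := by
      rw [← c5_append, ← hl]
      exact ha1 x
    refine ⟨run t m a x (a x).2 l1 ∅, ?_, ?_, ?_⟩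
    · show _ ⊆ (a x).1
      rw [hout]
      exact g3
    · exact run_bound t m a x (a x).2 hg l1 ∅ c.1 (fun w hw => absurd hw (Finset.notMem_empty w)) hd
    · intro y hy h1 h2 h3 h4
      have hb := run_bound t m a x (a x).2 hg l1 ∅ c.1
        (fun w hw => absurd hw (Finset.notMem_empty w)) hd
      have hp : prop t m a x c (run t m a x (a x).2 l1 ∅) = some y := by
        unfold prop
        rw [hy]
        show (if _ then some y else none) = some y
        refine if_pos ⟨h1, h3, h4, ?_⟩
        intro w hw
        rcases Finset.mem_insert.1 hw with h5 | h5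
        · rw [h5]; exact h2
        · exact hb w h5
      obtain ⟨k1, k2⟩ := run_capture t m a x (a x).2 hg l1 l2 c ∅ (hempty x _) y hp
      refine ⟨?_, ?_⟩
      · intro h5
        have h6 : (a y).2 = (a x).2 := h5
        rw [h6, ha2 x, ← hl] at k1
        exact c5_mex_notMem _ k1
      · intro h5
        show y ∈ (a x).1
        rw [ha1 x, hl]
        exact k2 h5

end Out

end Pool.Agent.CS
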