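import Mathlib
import Pool.Agent.Lib_helper80.CS.Defs

set_option autoImplicit false

namespace Pool.Agent.CS

open Finset

theorem c6_aux {V Ω : Type} [LinearOrder Ω] {t : V → Ω} {m : V → ℕ} {out : V → Finset V}
    {rk : V → ℕ} (h : Forest t m out rk) (B : ℕ) (d : ℕ) : ∀ r, B ≤ r + d →
    ¬ ∃ f : ℕ → V, Function.Injective f ∧
      (∀ n, f (n + 1) ∈ out (f n) ∨ f n ∈ out (f (n + 1))) ∧ ∀ n, r ≤ rk (f n) ∧ rk (f n) < B := by
  induction d with
  | zero =>
    rintro r hr ⟨f, -, -, h3⟩
    have := h3 0
    omega
  | succ d ih =>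
    rintro r hr ⟨f, h1, h2, h3⟩
    by_cases hall : ∀ n, r + 1 ≤ rk (f n)
    · exact ih (r + 1) (by omega) ⟨f, h1, h2, fun n => ⟨hall n, (h3 n).2⟩⟩
    · push Not at hall
      obtain ⟨i, hi⟩ := hall
      have hi' : rk (f i) = r := by
        have := (h3 i).1
        omega
      have key : ∀ n, f i ∈ out (f (i + 1 + n)) := by
        intro n
        induction n with
        | zero =>
          rcases h2 i with h4 | h4
          · have := h.rk _ _ h4
            have := (h3 (i + 1)).1
            omega
          · exact h4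
        | succ n ihn =>
          have e : i + 1 + (n + 1) = (i + 1 + n) + 1 := by ring
          rw [e]
          rcases h2 (i + 1 + n) with h4 | h4
          · rcases h.chain _ _ ihn _ h4 with h5 | h5 | h5
            · have := h1 h5
              omega
            · exact h5
            · have := h.rk _ _ h5
              have := (h3 (i + 1 + n + 1)).1
              omega
          · exact h.trans _ _ h4 ihn
      refine ih (r + 1) (by omega) ⟨fun n => f (i + 1 + n), ?_, ?_, ?_⟩
      · intro a b hab
        have := h1 hab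
        omega
      · intro n
        exact h2 (i + 1 + n)
      · intro n
        have h7 := h.rk _ _ (key n)
        refine ⟨?_, (h3 _).2⟩
        show r + 1 ≤ rk (f (i + 1 + n))
        omega

theorem no_path {V Ω : Type} [LinearOrder Ω] {t : V → Ω} {m : V → ℕ} {out : V → Finset V}
    {rk : V → ℕ} (h : Forest t m out rk) (R : ℕ → ℕ) (hR : ∀ x, rk x < R (m x)) :
    ¬ ∃ f : ℕ → V, Function.Injective f ∧ ∀ n, f (n + 1) ∈ out (f n) ∨ f n ∈ out (f (n + 1)) := by
  rintro ⟨f, h1, h2⟩
  have hlev : ∀ n, m (f n) = m (f 0) := by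
    intro n
    induction n with
    | zero => rfl
    | succ n ih =>
      rcases h2 n with h4 | h4
      · rw [h.lev _ _ h4, ih]
      · rw [← h.lev _ _ h4, ih]
  refine c6_aux h (R (m (f 0))) (R (m (f 0))) 0 (by omega) ⟨f, h1, h2, fun n => ⟨Nat.zero_le _, ?_⟩⟩
  have := hR (f n)
  rwa [hlev n] at this

end Pool.Agent.CS
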