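import Mathlib
import Pool.Agent.Lib_helper80.CS.Defs

/-! Block C7: the lists. -/

set_option autoImplicit false

namespace Pool.Agent.CS

open Finset

theorem c7_sorted {Ω : Type} [LinearOrder Ω] (v : Ω → Ω) (T : Finset Ω) :
    ∃ l : List Ω, (∀ ξ, ξ ∈ l ↔ ξ ∈ T) ∧ l.length = T.card ∧
      l.Pairwise (fun a b => v a ≤ v b) ∧ l.Nodup := by
  classical
  refine ⟨T.toList.mergeSort (fun a b => decide (v a ≤ v b)), ?_, ?_, ?_,
    (List.mergeSort_perm _ _).nodup_iff.2 T.nodup_toList⟩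
  · intro ξ
    rw [(List.mergeSort_perm _ _).mem_iff, Finset.mem_toList]
  · rw [(List.mergeSort_perm _ _).length_eq, Finset.length_toList]
  · have h := List.pairwise_mergeSort (le := fun a b => decide (v a ≤ v b))
      (fun a b c h1 h2 => by
        simp only [decide_eq_true_eq] at h1 h2 ⊢
        exact h1.trans h2)
      (fun a b => by
        simp only [Bool.or_eq_true, decide_eq_true_eq]
        exact le_total _ _) T.toList
    exact h.imp (fun {a b} hab => by simpa only [decide_eq_true_eq] using hab)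

theorem c7_finite {Ω : Type} [LinearOrder Ω] (e : Ω → ℕ) (z : Ω)
    (he : Set.InjOn e (Set.Iio z)) (k : ℕ) (P : Ω → Prop) :
    ∃ T : Finset Ω, (∀ ξ, ξ ∈ T ↔ ξ < z ∧ e ξ < k ∧ P ξ) ∧ T.card ≤ k := by
  classical
  have hinj : Set.InjOn e {ξ | ξ < z ∧ e ξ < k ∧ P ξ} := fun a ha b hb hab =>
    he (Set.mem_Iio.2 ha.1) (Set.mem_Iio.2 hb.1) hab
  have hfin : {ξ | ξ < z ∧ e ξ < k ∧ P ξ}.Finite := by
    refine Set.Finite.of_finite_image ?_ hinj
    refine (Set.finite_Iio k).subset ?_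
    rintro n ⟨ξ, hξ, rfl⟩
    exact hξ.2.1
  refine ⟨hfin.toFinset, fun ξ => by rw [Set.Finite.mem_toFinset]; rfl, ?_⟩
  have h1 : (hfin.toFinset.image e).card = hfin.toFinset.card := by
    refine Finset.card_image_of_injOn ?_
    intro a ha b hb hab
    rw [Set.Finite.coe_toFinset] at ha hb
    exact hinj ha hb hab
  rw [← h1]
  have h2 : hfin.toFinset.image e ⊆ Finset.range k := by
    intro n hn
    obtain ⟨ξ, hξ, rfl⟩ := Finset.mem_image.1 hn
    rw [Set.Finite.mem_toFinset] at hξ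
    exact Finset.mem_range.2 hξ.2.1
  calc (hfin.toFinset.image e).card ≤ (Finset.range k).card := Finset.card_le_card h2
    _ = k := Finset.card_range k

/-- BLOCK C7. -/
theorem exists_lists {V Ω : Type} [LinearOrder Ω] (s : Sys V Ω) (h : s.Ok) :
    ∃ l : V → List (Cand V Ω), (∀ x, (l x).length ≤ s.m x * s.m x) ∧
      ∀ x z ξ, z ∈ s.L x → ξ < z → s.e z ξ < s.m x → (s.c ξ).1 ≤ z →
        (∀ z' ∈ s.L x, z' < z → z' ≤ (s.c ξ).1) →
        ∃ l1 l2, l x = l1 ++ s.c ξ :: l2 ∧ ∀ d ∈ l1, d.1 ≤ (s.c ξ).1 := by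
  classical
  have hT : ∀ z : Ω, ∀ k : ℕ, ∃ T : Finset Ω,
      (∀ ξ, ξ ∈ T ↔ ξ < z ∧ s.e z ξ < k ∧ (s.c ξ).1 ≤ z) ∧ T.card ≤ k :=
    fun z k => c7_finite (s.e z) z (h.ei z) k (fun ξ => (s.c ξ).1 ≤ z)
  choose T hT1 hT2 using hT
  have hS : ∀ z : Ω, ∀ k : ℕ, ∃ l : List Ω, (∀ ξ, ξ ∈ l ↔ ξ ∈ T z k) ∧
      l.length = (T z k).card ∧ l.Pairwise (fun a b => (s.c a).1 ≤ (s.c b).1) :=
    fun z k => by
      obtain ⟨l, h1, h2, h3, -⟩ := c7_sorted (fun ξ => (s.c ξ).1) (T z k)
      exact ⟨l, h1, h2, h3⟩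
  choose S hS1 hS2 hS3 using hS
  have hL : ∀ x : V, ∃ l : List Ω, (∀ z, z ∈ l ↔ z ∈ s.L x) ∧ l.length = (s.L x).card ∧
      l.Pairwise (fun a b => a < b) := by
    intro x
    obtain ⟨l, h1, h2, h3, hnd⟩ := c7_sorted (fun z : Ω => z) (s.L x)
    refine ⟨l, h1, h2, ?_⟩
    have h6 : l.Pairwise (fun a b => a ≤ b ∧ a ≠ b) := h3.and hnd
    exact h6.imp (fun {a b} hab => lt_of_le_of_ne hab.1 hab.2)
  choose L hL1 hL2 hL3 using hL
  refine ⟨fun x => (L x).flatMap (fun z => (S z (s.m x)).map s.c), ?_, ?_⟩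
  · intro x
    have h1 : ∀ l : List Ω,
        (l.flatMap (fun z => (S z (s.m x)).map s.c)).length ≤ l.length * s.m x := by
      intro l
      induction l with
      | nil => simp
      | cons z l ih =>
        rw [List.flatMap_cons, List.length_append, List.length_map, hS2, List.length_cons,
          Nat.succ_mul]
        have := hT2 z (s.m x)
        omega
    calc _ ≤ (L x).length * s.m x := h1 (L x)
      _ ≤ s.m x * s.m x := by
        rw [hL2]
        exact Nat.mul_le_mul_right _ (h.Lm x)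
  · intro x z ξ hz hξz hek hcz hprev
    have hzL : z ∈ L x := (hL1 x z).2 hz
    obtain ⟨p, q, hpq⟩ := List.append_of_mem hzL
    have hξS : ξ ∈ S z (s.m x) := (hS1 z (s.m x) ξ).2 ((hT1 z (s.m x) ξ).2 ⟨hξz, hek, hcz⟩)
    obtain ⟨p', q', hpq'⟩ := List.append_of_mem hξS
    refine ⟨p.flatMap (fun z => (S z (s.m x)).map s.c) ++ p'.map s.c,
      q'.map s.c ++ q.flatMap (fun z => (S z (s.m x)).map s.c), ?_, ?_⟩
    · show (L x).flatMap (fun z => (S z (s.m x)).map s.c) = _
      rw [hpq, List.flatMap_append, List.flatMap_cons, hpq', List.map_append, List.map_cons]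
      simp only [List.append_assoc, List.cons_append]
    · intro d hd
      rcases List.mem_append.1 hd with hd | hd
      · obtain ⟨z', hz', hd'⟩ := List.mem_flatMap.1 hd
        obtain ⟨η, hη, rfl⟩ := List.mem_map.1 hd'
        have hη' := (hT1 z' (s.m x) η).1 ((hS1 z' (s.m x) η).1 hη)
        have hz'L : z' ∈ L x := by
          rw [hpq]
          exact List.mem_append_left _ hz'
        have hlt : z' < z := by
          have hpw := hL3 x
          rw [hpq] at hpw
          exact (List.pairwise_append.1 hpw).2.2 z' hz' z List.mem_cons_self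
        exact hη'.2.2.trans (hprev z' ((hL1 x z').1 hz'L) hlt)
      · obtain ⟨η, hη, rfl⟩ := List.mem_map.1 hd
        have hpw := hS3 z (s.m x)
        rw [hpq'] at hpw
        exact (List.pairwise_append.1 hpw).2.2 η hη ξ List.mem_cons_self

end Pool.Agent.CS
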