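import Mathlib
import Pool.Agent.Lib_helper80.CS.Defs
import Pool.Agent.Lib_helper80.CS.F.C5
import Pool.Agent.Lib_helper80.CS.F.C6
import Pool.Agent.Lib_helper80.CS.F.C7
import Pool.Agent.Lib_helper80.CS.F.C8

/-!
# CS, block C9: `graph_exists`
-/

set_option autoImplicit false

namespace Pool.Agent.CS

open Finset

/-- a choice function of elements of minimal rank -/
theorem c9_choice {V : Type} (P : ℕ → Finset V → V → Prop) (rk : V → ℕ) :
    ∃ f : ℕ → Finset V → Option V, ∀ k N,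
      (∀ y, f k N = some y → P k N y ∧ ∀ y', P k N y' → rk y ≤ rk y') ∧
        ((∃ y, P k N y) → ∃ y, f k N = some y) := by
  classical
  have key : ∀ k N, ∃ o : Option V,
      (∀ y, o = some y → P k N y ∧ ∀ y', P k N y' → rk y ≤ rk y') ∧
        ((∃ y, P k N y) → ∃ y, o = some y) := by
    intro k N
    by_cases hex : ∃ y, P k N y
    · have hne : ∃ n, ∃ y, P k N y ∧ rk y = n := by
        obtain ⟨y, hy⟩ := hex
        exact ⟨rk y, y, hy, rfl⟩
      obtain ⟨y, hy, hyr⟩ := Nat.find_spec hne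
      refine ⟨some y, ?_, fun _ => ⟨y, rfl⟩⟩
      intro y1 hy1
      obtain rfl : y = y1 := Option.some.inj hy1
      refine ⟨hy, fun y' hy' => ?_⟩
      rw [hyr]
      exact Nat.find_min' hne ⟨y', hy', rfl⟩
    · refine ⟨none, ?_, fun hh => absurd hh hex⟩
      intro y hy
      exact absurd hy (by simp)
  choose f hf using key
  exact ⟨f, hf⟩

/-- BLOCK C9 (uses C5, C6, C7, C8). The graph. `out`, `rk` from C5 for the lists of C7; `R k = 2 ^ (k * k)`. For an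
independent `D` and `g0`: `f k N` := some `y ∈ D` with `m y = k`, `N ⊆ out y`, of minimal rank, if there is one, else
`none`; `g ≥ g0` closed under `f` (C8); `ξ` = a candidate for `(g, f)` (`guess`); `γ` > `ξ`, `γ ≥ g`; for
`z ≥ γ` put `k0 = e z ξ + 1`. Suppose `x ∈ D`, `k0 ≤ m x`, `z ∈ L x` and all `z' ∈ L x`, `z' < z` are
`≤ g`. Then C7 and C5 give `N ⊆ out x` with times `< g`; `x` shows that `f (m x) N = some y` with
`rk y ≤ rk x`, `y ∈ D`, `N ⊆ out y`, `t y < g ≤ z ≤ t x`. By C5 `rk y ≠ rk x`, so `y ∈ out x`: contradiction. -/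
theorem graph_exists {V Ω : Type} [LinearOrder Ω] [WellFoundedLT Ω]
    (hb : ∀ S : Set Ω, S.Countable → ∃ b, ∀ x ∈ S, x < b) (s : Sys V Ω) (h : s.Ok) :
    ∃ out : V → Finset V,
      (¬ ∃ f : ℕ → V, Function.Injective f ∧ ∀ n, f (n + 1) ∈ out (f n) ∨ f n ∈ out (f (n + 1))) ∧
      (∀ x, x ∉ out x) ∧
      ∀ D : Set V, (∀ x ∈ D, ∀ y ∈ D, y ∉ out x) → ∀ g0, ∃ g, g0 ≤ g ∧ ∃ γ, ∀ z, γ ≤ z →
        ∃ k0, ∀ x ∈ D, k0 ≤ s.m x → z ∈ s.L x → ∃ z' ∈ s.L x, g < z' ∧ z' < z := by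
  classical
  obtain ⟨l, hlen, hl⟩ := exists_lists s h
  obtain ⟨out, rk, hF, hrk, hcap⟩ := exists_out s.t s.m l
  refine ⟨out, no_path hF (fun k => 2 ^ (k * k)) ?_, ?_, ?_⟩
  · intro x
    exact (hrk x).trans_le (Nat.pow_le_pow_right (by norm_num) (hlen x))
  · intro x hx
    exact lt_irrefl _ (hF.lt x x hx)
  · intro D hD g0
    obtain ⟨f, hf⟩ := c9_choice (fun k N y => y ∈ D ∧ s.m y = k ∧ N ⊆ out y) rk
    obtain ⟨g, hg0, hg⟩ := closure hb s.t h.cnt f g0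
    obtain ⟨ξ, hξ1, hξ2⟩ := h.guess g f
    obtain ⟨γ, hγ⟩ := hb {ξ, g} (Set.Countable.insert _ (Set.countable_singleton _))
    have hγξ : ξ < γ := hγ ξ (by simp)
    have hγg : g < γ := hγ g (by simp)
    refine ⟨g, hg0, γ, ?_⟩
    intro z hz
    refine ⟨s.e z ξ + 1, ?_⟩
    intro x hx hk hzL
    by_contra hcon
    have hcon' : ∀ z' ∈ s.L x, z' < z → z' ≤ g := by
      intro z' hz' hlt
      by_contra hgt
      exact hcon ⟨z', hz', not_le.mp hgt, hlt⟩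
    have hgz : g < z := hγg.trans_le hz
    obtain ⟨l1, l2, hlx, hl1⟩ := hl x z ξ hzL (hγξ.trans_le hz) (Nat.lt_of_succ_le hk)
      (by rw [hξ1]; exact hgz.le) (by rw [hξ1]; exact hcon')
    obtain ⟨N, hN1, hN2, hN3⟩ := hcap x l1 (s.c ξ) l2 hlx hl1
    rw [hξ1] at hN2 hN3
    obtain ⟨hfa, hfb⟩ := hf (s.m x) N
    obtain ⟨y, hy⟩ := hfb ⟨x, hx, rfl, hN1⟩
    obtain ⟨⟨hyD, hym, hyN⟩, hymin⟩ := hfa y hy
    have hty : s.t y < g := hg (s.m x) N hN2 y hy
    have hval : (s.c ξ).2 (s.m x) N = some y := by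
      rw [hξ2 (s.m x) N hN2 (fun y' hy' => hg (s.m x) N hN2 y' hy')]
      exact hy
    have htx : s.t y < s.t x := (hty.trans hgz).trans_le (h.Lt x z hzL)
    obtain ⟨hne, hlt⟩ := hN3 y hval htx hty hym hyN
    have hle : rk y ≤ rk x := hymin x ⟨hx, rfl, hN1⟩
    exact hD x hx y hyD (hlt (lt_of_le_of_ne hle hne))

end Pool.Agent.CS
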