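import Mathlib
import Pool.Agent.Lib_helper80.CS.Defs

/-!
# CS, block C11
-/

set_option autoImplicit false

namespace Pool.Agent.CS

section Ord

variable {V Ω : Type} [LinearOrder V] [WellFoundedLT V] [LinearOrder Ω] [WellFoundedLT Ω]

theorem c11_anti (τ : V → Ω) (hτ : Function.Injective τ) {x a b : V} (ha : a ∈ Rec τ x)
    (hb : b ∈ Rec τ x) (hab : a < b) : τ b < τ a := by
  rcases lt_trichotomy (τ a) (τ b) with h | h | h
  · exact absurd (hb.2 a ha.1 h) (not_lt.2 hab.le)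
  · exact absurd (hτ h) hab.ne
  · exact h

theorem rec_finite (τ : V → Ω) (hτ : Function.Injective τ) (x : V) : (Rec τ x).Finite := by
  by_contra hinf
  have hinf' : (Rec τ x).Infinite := hinf
  let f : ℕ → V := fun n => (Set.Infinite.natEmbedding _ hinf' n : V)
  have hf : ∀ n, f n ∈ Rec τ x := fun n => (Set.Infinite.natEmbedding _ hinf' n).2
  have hfi : Function.Injective f := fun a b h =>
    (Set.Infinite.natEmbedding _ hinf').injective (Subtype.ext h)
  obtain ⟨g, hg | hg⟩ := exists_increasing_or_nonincreasing_subseq (· < ·) f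
  · refine not_strictAnti_of_wellFoundedLT (fun n => τ (f (g n))) ?_
    intro a b hab
    exact c11_anti τ hτ (hf _) (hf _) (hg a b hab)
  · refine not_strictAnti_of_wellFoundedLT (fun n => f (g n)) ?_
    intro a b hab
    refine lt_of_le_of_ne (not_lt.1 (hg a b hab)) ?_
    intro h
    exact hab.ne (g.injective (hfi h)).symm

theorem rec_le (τ : V → Ω) {x v : V} (h : v ∈ Rec τ x) : τ v ≤ τ x := by
  by_contra hc
  exact absurd (h.2 x le_rfl (not_le.1 hc)) (not_lt.2 h.1)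

theorem arg_exists (τ : V → Ω) {v : WithTop V} {x : V} (hx : (x : WithTop V) < v) :
    ∃ w, Arg τ v x w := by
  obtain ⟨w, hw, hmin⟩ := (InvImage.wf τ (wellFounded_lt (α := Ω))).has_min
    {w | x ≤ w ∧ (w : WithTop V) < v} ⟨x, le_rfl, hx⟩
  exact ⟨w, hw.1, hw.2, fun w' h1 h2 => not_lt.1 (hmin w' ⟨h1, h2⟩)⟩

theorem arg_unique (τ : V → Ω) (hτ : Function.Injective τ) {v : WithTop V} {x w w' : V}
    (h : Arg τ v x w) (h' : Arg τ v x w') : w = w' :=
  hτ (le_antisymm (h.2.2 w' h'.1 h'.2.1) (h'.2.2 w h.1 h.2.1))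

theorem arg_mono (τ : V → Ω) {v : WithTop V} {x x' w w' : V} (hxx : x ≤ x')
    (h : Arg τ v x w) (h' : Arg τ v x' w') : τ w ≤ τ w' :=
  h.2.2 w' (hxx.trans h'.1) h'.2.1

/-- the vertex of smallest index in `[x, v)` is a record -/
theorem arg_rec (τ : V → Ω) {v : WithTop V} {x w : V} (h : Arg τ v x w) : w ∈ Rec τ x := by
  refine ⟨h.1, fun v' h1 h2 => ?_⟩
  by_contra hc
  have h3 : (v' : WithTop V) ≤ (w : WithTop V) := WithTop.coe_le_coe.2 (not_lt.1 hc)
  exact absurd (h.2.2 v' h1 (h3.trans_lt h.2.1)) (not_le.2 h2)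

/-- records of smaller index come from indices at most that of `v` -/
theorem arg_prev (τ : V → Ω) {v : WithTop V} {x w v' : V} (h : Arg τ v x w)
    (hv' : v' ∈ Rec τ x) (hlt : τ v' < τ w) : ∃ u : V, v = (u : WithTop V) ∧ τ v' ≤ τ u := by
  have h1 : v ≤ (v' : WithTop V) := by
    by_contra hc
    exact absurd (h.2.2 v' hv'.1 (not_le.1 hc)) (not_le.2 hlt)
  obtain ⟨u, hu⟩ := WithTop.ne_top_iff_exists.1 (h1.trans_lt (WithTop.coe_lt_top v')).ne
  refine ⟨u, hu.symm, ?_⟩
  subst hu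
  have h2 : u ≤ v' := WithTop.coe_le_coe.1 h1
  have h3 : x ≤ u := h.1.trans (WithTop.coe_lt_coe.1 h.2.1).le
  by_contra hc
  exact absurd (hv'.2 u h3 (not_le.1 hc)) (not_lt.2 h2)

end Ord

end Pool.Agent.CS
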