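import Mathlib
import Pool.Agent.Lib_helper80.CS.Defs

/-! CS block C12: order types (helper35) -/

set_option autoImplicit false

namespace Pool.Agent.CS

section Ord

variable {V Ω : Type} [LinearOrder V] [WellFoundedLT V] [LinearOrder Ω] [WellFoundedLT Ω]

/-- BLOCK C12. Order types. `β * (ρ of the piece) + (position in the piece)`, `ρ` = rank of `Ω` (`< ω₁`). -/
theorem TL.lex {S : Set V} {β : Ordinal.{0}} (ρ : Ω → Ordinal.{0}) (hρ : StrictMono ρ)
    (hρ1 : ∀ z, ρ z < Ordinal.omega 1) (s : V → Ω) (hs : MonotoneOn s S)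
    (h : ∀ z, TL {x | x ∈ S ∧ s x = z} β) : TL S (β * Ordinal.omega 1) := by
  have h' : ∀ z, ∃ f : V → Ordinal.{0}, StrictMonoOn f {x | x ∈ S ∧ s x = z} ∧
      ∀ x ∈ {x | x ∈ S ∧ s x = z}, f x < β := h
  choose f hf1 hf2 using h'
  have hstep : ∀ x ∈ S, β * ρ (s x) + f (s x) x < β * Order.succ (ρ (s x)) := by
    intro x hx
    rw [Ordinal.mul_succ]
    exact (add_lt_add_iff_left _).mpr (hf2 (s x) x ⟨hx, rfl⟩)
  refine ⟨fun x => β * ρ (s x) + f (s x) x, ?_, ?_⟩
  · intro x hx y hy hxy
    rcases (hs hx hy hxy.le).lt_or_eq with hlt | heq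
    · have h1 : Order.succ (ρ (s x)) ≤ ρ (s y) := Order.succ_le_of_lt (hρ hlt)
      calc β * ρ (s x) + f (s x) x < β * Order.succ (ρ (s x)) := hstep x hx
        _ ≤ β * ρ (s y) := mul_le_mul_right h1 β
        _ ≤ β * ρ (s y) + f (s y) y := le_self_add
    · show β * ρ (s x) + f (s x) x < β * ρ (s y) + f (s y) y
      rw [← heq]
      exact (add_lt_add_iff_left _).mpr (hf1 (s x) ⟨hx, rfl⟩ ⟨hy, heq.symm⟩ hxy)
  · intro x hx
    have h1 : Order.succ (ρ (s x)) ≤ Ordinal.omega 1 := Order.succ_le_of_lt (hρ1 (s x))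
    exact (hstep x hx).trans_le (mul_le_mul_right h1 β)

theorem TL.mono {S T : Set V} {β β' : Ordinal.{0}} (hST : S ⊆ T) (hβ : β ≤ β') (h : TL T β) :
    TL S β' := by
  obtain ⟨f, h1, h2⟩ := h
  exact ⟨f, h1.mono hST, fun x hx => (h2 x (hST hx)).trans_le hβ⟩

/-- first `S`, then `T` -/
theorem TL.add {S T : Set V} {β β' : Ordinal.{0}} (hS : TL S β) (hT : TL T β')
    (h : ∀ x ∈ S, ∀ y ∈ T, x < y) : TL (S ∪ T) (β + β') := by
  classical
  obtain ⟨f, f1, f2⟩ := hS
  obtain ⟨g, g1, g2⟩ := hT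
  have hT' : ∀ x ∈ S ∪ T, x ∉ S → x ∈ T := fun x hx hn => hx.resolve_left hn
  refine ⟨fun x => if x ∈ S then f x else β + g x, ?_, ?_⟩
  · intro x hx y hy hxy
    show (if x ∈ S then f x else β + g x) < (if y ∈ S then f y else β + g y)
    by_cases hxS : x ∈ S
    · by_cases hyS : y ∈ S
      · rw [if_pos hxS, if_pos hyS]
        exact f1 hxS hyS hxy
      · rw [if_pos hxS, if_neg hyS]
        exact (f2 x hxS).trans_le le_self_add
    · by_cases hyS : y ∈ S
      · exact absurd (h y hyS x (hT' x hx hxS)) (not_lt.mpr hxy.le)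
      · rw [if_neg hxS, if_neg hyS]
        exact (add_lt_add_iff_left _).mpr (g1 (hT' x hx hxS) (hT' y hy hyS) hxy)
  · intro x hx
    show (if x ∈ S then f x else β + g x) < β + β'
    by_cases hxS : x ∈ S
    · rw [if_pos hxS]
      exact (f2 x hxS).trans_le le_self_add
    · rw [if_neg hxS]
      exact (add_lt_add_iff_left _).mpr (g2 x (hT' x hx hxS))

theorem TL.one (v : V) : TL ({v} : Set V) 1 := by
  refine ⟨fun _ => 0, ?_, fun _ _ => zero_lt_one⟩
  intro x hx y hy hxy
  rw [Set.mem_singleton_iff] at hx hy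
  rw [hx, hy] at hxy
  exact absurd hxy (lt_irrefl _)

/-- the connection with `Ordinal.type` (`Ordinal.type_le_iff'`, `OrderEmbedding.ofStrictMono`;
`Ordinal.typein` for the converse) -/
theorem TL_iff (S : Set V) (β : Ordinal.{0}) :
    TL S β ↔ Ordinal.type (fun x y : S => x < y) ≤ β := by
  classical
  constructor
  · rintro ⟨f, f1, f2⟩
    have key : ∀ x : S, Ordinal.typein (fun x y : S => x < y) x ≤ f x := by
      intro x
      induction x using WellFoundedLT.induction with
      | ind x ih =>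
        apply le_of_forall_lt
        intro o ho
        have ho' : o < Ordinal.type (fun x y : S => x < y) :=
          ho.trans (Ordinal.typein_lt_type _ x)
        obtain ⟨y, hy⟩ := Ordinal.typein_surj (fun x y : S => x < y) ho'
        rw [← hy] at ho ⊢
        have hyx : y < x := (Ordinal.typein_lt_typein (fun x y : S => x < y)).mp ho
        exact (ih y hyx).trans_lt (f1 y.2 x.2 hyx)
    apply le_of_forall_lt
    intro o ho
    obtain ⟨y, hy⟩ := Ordinal.typein_surj (fun x y : S => x < y) ho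
    rw [← hy]
    exact (key y).trans_lt (f2 y y.2)
  · intro h
    refine ⟨fun x => if hx : x ∈ S then Ordinal.typein (fun x y : S => x < y) ⟨x, hx⟩ else 0,
      ?_, ?_⟩
    · intro x hx y hy hxy
      show (if hx : x ∈ S then Ordinal.typein (fun x y : S => x < y) ⟨x, hx⟩ else 0) <
        (if hx : y ∈ S then Ordinal.typein (fun x y : S => x < y) ⟨y, hx⟩ else 0)
      rw [dif_pos hx, dif_pos hy]
      exact (Ordinal.typein_lt_typein (fun x y : S => x < y)).mpr hxy
    · intro x hx
      show (if hx : x ∈ S then Ordinal.typein (fun x y : S => x < y) ⟨x, hx⟩ else 0) < β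
      rw [dif_pos hx]
      exact (Ordinal.typein_lt_type _ _).trans_le h

end Ord

end Pool.Agent.CS
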