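import Mathlib
import Pool.Agent.Lib_helper80.CS.Defs
import Pool.Agent.Lib_helper80.CS.F.C11
import Pool.Agent.Lib_helper80.CS.F.C12

/-! CS block C13 (helper98): Milner-Rado -/

set_option autoImplicit false

namespace Pool.Agent.CS

section Ord

variable {V Ω : Type} [LinearOrder V] [WellFoundedLT V] [LinearOrder Ω] [WellFoundedLT Ω]

theorem c13_two : (2 : Ordinal.{0}) * Ordinal.omega 1 = Ordinal.omega 1 := by
  refine Ordinal.isPrincipal_mul_iff_mul_left_eq.1 (Ordinal.isPrincipal_mul_omega 1) 2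
    (by norm_num) ?_
  exact (Ordinal.natCast_lt_omega0 2).trans_le (Ordinal.omega0_le_omega 1)

theorem c13_empty (β : Ordinal.{0}) {S : Set V} (h : S = ∅) : TL S β := by
  subst h
  exact ⟨fun _ => 0, fun x hx => absurd hx (Set.notMem_empty x),
    fun x hx => absurd hx (Set.notMem_empty x)⟩

theorem c13_step (ρ : Ω → Ordinal.{0}) (hρ : StrictMono ρ)
    (hρ1 : ∀ z, ρ z < Ordinal.omega 1) (τ : V → Ω) (hτ : Function.Injective τ)
    (hex : ∀ {v : WithTop V} {x : V}, (x : WithTop V) < v → ∃ w, Arg τ v x w)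
    (v : WithTop V) (h : ∀ w : V, (w : WithTop V) < v → ∃ m : V → ℕ, ∀ k,
      TL {x | x ≤ w ∧ m x < k} (Ordinal.omega 1 ^ k * 2)) :
    ∃ m : V → ℕ, ∀ k, TL {x : V | (x : WithTop V) < v ∧ m x < k} (Ordinal.omega 1 ^ k) := by
  classical
  choose! M hM using h
  have hw : ∀ x : V, (x : WithTop V) < v → ∃ w, Arg τ v x w := fun x hx => hex hx
  choose! w hw using hw
  refine ⟨fun x => M (w x) x + 1, fun k => ?_⟩
  cases k with
  | zero =>
    apply c13_empty
    ext x
    simp
  | succ k =>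
    have e : Ordinal.omega 1 ^ (k + 1) = (Ordinal.omega 1 ^ k * 2) * Ordinal.omega.{0} 1 := by
      rw [mul_assoc, c13_two, pow_succ]
    rw [e]
    refine TL.lex ρ hρ hρ1 (fun x => τ (w x)) ?_ ?_
    · intro x hx y hy hxy
      exact arg_mono τ hxy (hw x hx.1) (hw y hy.1)
    · intro z
      by_cases hz : ∃ x₀, x₀ ∈ {x : V | (x : WithTop V) < v ∧ M (w x) x + 1 < k + 1} ∧ τ (w x₀) = z
      · obtain ⟨x₀, hx₀, hz₀⟩ := hz
        refine TL.mono ?_ le_rfl (hM (w x₀) (hw x₀ hx₀.1).2.1 k)
        rintro x ⟨hx, hxz⟩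
        have h1 : w x = w x₀ := hτ (hxz.trans hz₀.symm)
        refine ⟨?_, ?_⟩
        · rw [← h1]
          exact (hw x hx.1).1
        · have h2 : M (w x) x + 1 < k + 1 := hx.2
          rw [← h1]
          omega
      · apply c13_empty
        apply Set.eq_empty_iff_forall_notMem.2
        rintro x ⟨hx, hxz⟩
        exact hz ⟨x, hx, hxz⟩

/-- BLOCK C13 (uses C11, C12). Milner-Rado. By well-founded induction on `v : V`: there is `m` with
`TL {x | x ≤ v ∧ m x < k} (ω₁ ^ k * 2)` for all `k`: for `x < v` let `w = w_v(x)` be the vertex with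
`Arg τ v x w` (so `x ≤ w < v`) and `m x = m_w x + 1`; `m v = 1`. `{x < v | m x < k + 1}`: `TL.lex` with
`s x = τ w` (`arg_mono`; the piece `s x = z` is contained in `{x ≤ w | m_w x < k}`, `w` fixed by injectivity), bound
`ω₁ ^ k * 2 * ω₁ = ω₁ ^ (k+1)`; add the point `v`. At the end the same step with `v = ⊤`, without
the last point. -/
theorem milner_rado (ρ : Ω → Ordinal.{0}) (hρ : StrictMono ρ)
    (hρ1 : ∀ z, ρ z < Ordinal.omega 1) (τ : V → Ω) (hτ : Function.Injective τ) :
    ∃ m : V → ℕ, ∀ k, TL {x | m x < k} (Ordinal.omega 1 ^ k) := by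
  classical
  have hex : ∀ {v : WithTop V} {x : V}, (x : WithTop V) < v → ∃ w, Arg τ v x w :=
    fun hx => arg_exists τ hx
  have key : ∀ v : V, ∃ m : V → ℕ, ∀ k, TL {x | x ≤ v ∧ m x < k} (Ordinal.omega 1 ^ k * 2) := by
    intro v
    induction v using WellFoundedLT.induction with
    | ind v ih =>
      obtain ⟨m, hm⟩ := c13_step ρ hρ hρ1 τ hτ hex (v : WithTop V) (fun w hw =>
        ih w (WithTop.coe_lt_coe.1 hw))
      refine ⟨fun x => if x = v then 0 else m x, fun k => ?_⟩
      have h1 : (1 : Ordinal.{0}) ≤ Ordinal.omega 1 ^ k :=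
        one_le_pow₀ (le_trans (by
          exact_mod_cast (Ordinal.natCast_lt_omega0 1).le) (Ordinal.omega0_le_omega 1))
      cases k with
      | zero =>
        apply c13_empty
        ext x
        simp
      | succ k =>
        have h2 := TL.add (hm (k + 1)) (TL.one v) (by
          rintro x ⟨hx, -⟩ y hy
          rw [Set.mem_singleton_iff.1 hy]
          exact WithTop.coe_lt_coe.1 hx)
        refine TL.mono ?_ ?_ h2
        · rintro x ⟨hx, hx2⟩
          by_cases hxv : x = v
          · right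
            exact hxv
          · left
            simp only [if_neg hxv] at hx2
            exact ⟨WithTop.coe_lt_coe.2 (lt_of_le_of_ne hx hxv), hx2⟩
        · rw [← one_add_one_eq_two, mul_add, mul_one]
          exact add_le_add_right h1 _
  obtain ⟨m, hm⟩ := c13_step ρ hρ hρ1 τ hτ hex (⊤ : WithTop V) (fun w _ => key w)
  refine ⟨m, fun k => TL.mono ?_ le_rfl (hm k)⟩
  intro x hx
  exact ⟨WithTop.coe_lt_top x, hx⟩

end Ord

end Pool.Agent.CS
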