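import Mathlib
import Pool.Agent.Lib_helper80.CS.Defs
import Pool.Agent.Lib_helper80.CS.F.C11
import Pool.Agent.Lib_helper80.CS.F.C12

/-! CS block C14: large sets have large pieces (helper73) -/

set_option autoImplicit false

namespace Pool.Agent.CS

section Ord

variable {V Ω : Type} [LinearOrder V] [WellFoundedLT V] [LinearOrder Ω] [WellFoundedLT Ω]

theorem c14_pow : (Ordinal.omega 1 : Ordinal.{0}) ^ (Ordinal.omega0 + 2) =
    Ordinal.omega 1 ^ (Ordinal.omega0 + 1) * Ordinal.omega 1 := by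
  have h : (Ordinal.omega0 + 2 : Ordinal.{0}) = Ordinal.omega0 + 1 + 1 := by
    rw [add_assoc, one_add_one_eq_two]
  rw [h, Ordinal.opow_add_one]

theorem c14_succ {q : Ordinal.{0}} (h : q < Ordinal.omega 1) : q + 1 < Ordinal.omega 1 :=
  (Cardinal.isSuccLimit_omega 1).add_one_lt h

/-- a part of `D` below countably many elements of `D` -/
theorem c14_low {D : Set V} {κ : Ordinal.{0}}
    (hD : Ordinal.type (fun x y : D => x < y) = κ * Ordinal.omega 1) {ι : Type} [Countable ι]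
    (b : ι → V) (hb : ∀ i, b i ∈ D) (D0 : Set V) (hD0 : ∀ x ∈ D0, x ∈ D ∧ ∃ i, x ≤ b i) :
    ∃ δ < Ordinal.omega 1, TL D0 (κ * δ) := by
  classical
  have h1 : ∀ i, ∃ q < Ordinal.omega 1,
      Ordinal.typein (fun x y : D => x < y) ⟨b i, hb i⟩ < κ * (q + 1) := by
    intro i
    have h2 := Ordinal.typein_lt_type (fun x y : D => x < y) ⟨b i, hb i⟩
    rw [hD, Ordinal.lt_mul_iff] at h2
    obtain ⟨q, hq, r, hr, he⟩ := h2
    refine ⟨q, hq, ?_⟩
    rw [he, mul_add_one]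
    exact (add_lt_add_iff_left _).mpr hr
  choose q hq1 hq2 using h1
  refine ⟨⨆ i, (q i + 1), Ordinal.iSup_lt_omega_one (fun i => c14_succ (hq1 i)), ?_⟩
  refine ⟨fun x => if hx : x ∈ D then Ordinal.typein (fun x y : D => x < y) ⟨x, hx⟩ else 0,
    ?_, ?_⟩
  · intro x hx y hy hxy
    have hx' := (hD0 x hx).1
    have hy' := (hD0 y hy).1
    show (if hx : x ∈ D then Ordinal.typein (fun x y : D => x < y) ⟨x, hx⟩ else 0) <
      (if hx : y ∈ D then Ordinal.typein (fun x y : D => x < y) ⟨y, hx⟩ else 0)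
    rw [dif_pos hx', dif_pos hy']
    exact (Ordinal.typein_lt_typein (fun x y : D => x < y)).mpr hxy
  · intro x hx
    obtain ⟨hx', i, hi⟩ := hD0 x hx
    show (if hx : x ∈ D then Ordinal.typein (fun x y : D => x < y) ⟨x, hx⟩ else 0) < _
    rw [dif_pos hx']
    have h3 : Ordinal.typein (fun x y : D => x < y) ⟨x, hx'⟩ ≤
        Ordinal.typein (fun x y : D => x < y) ⟨b i, hb i⟩ := by
      rcases hi.lt_or_eq with h4 | h4
      · exact ((Ordinal.typein_lt_typein (fun x y : D => x < y)).mpr h4).le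
      · subst h4
        exact le_rfl
    refine (h3.trans_lt (hq2 i)).trans_le ?_
    exact mul_le_mul_right (Ordinal.le_iSup (fun i => q i + 1) i) κ

theorem big_piece (hcnt : ∀ z : Ω, (Set.Iio z).Countable) (ρ : Ω → Ordinal.{0})
    (hρ : StrictMono ρ) (hρ1 : ∀ z, ρ z < Ordinal.omega 1) (τ : V → Ω)
    (hτ : Function.Injective τ) (m : V → ℕ) (hm : ∀ k, TL {x | m x < k} (Ordinal.omega 1 ^ k))
    (D : Set V) (hD : Ordinal.type (fun x y : D => x < y) =
      Ordinal.omega 1 ^ (Ordinal.omega0 + 2)) :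
    ∃ v : WithTop V, ∀ γ : Ω, ∃ z, γ ≤ z ∧ ∀ k0, ∃ x ∈ D, ∃ w, Arg τ v x w ∧ τ w = z ∧
      k0 ≤ m x := by
  classical
  obtain ⟨v, hv, hmin⟩ := (wellFounded_lt (α := WithTop V)).has_min
    {v : WithTop V | ∀ x ∈ D, (x : WithTop V) < v} ⟨⊤, fun x _ => WithTop.coe_lt_top x⟩
  refine ⟨v, fun γ => ?_⟩
  by_contra hcon
  push Not at hcon
  -- the pieces
  have hw : ∀ x : V, ∃ w : V, x ∈ D → Arg τ v x w := by
    intro x
    by_cases hx : x ∈ D
    · obtain ⟨w, hw⟩ := arg_exists τ (hv x hx)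
      exact ⟨w, fun _ => hw⟩
    · exact ⟨x, fun h => absurd h hx⟩
  choose w hw using hw
  have hmono : ∀ x ∈ D, ∀ y ∈ D, x ≤ y → τ (w x) ≤ τ (w y) := fun x hx y hy hxy =>
    arg_mono τ hxy (hw x hx) (hw y hy)
  -- the low part
  have hcw : {u : V | (u : WithTop V) < v ∧ τ u < γ}.Countable := by
    refine Set.Countable.mono ?_ ((hcnt γ).preimage_of_injOn (f := τ) (hτ.injOn))
    intro u hu
    exact hu.2
  have hub : ∀ u : {u : V | (u : WithTop V) < v ∧ τ u < γ}, ∃ x ∈ D, (u : V) ≤ x := by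
    intro u
    by_contra hc
    push Not at hc
    exact hmin ((u : V) : WithTop V) (fun x hx => WithTop.coe_lt_coe.2 (hc x hx)) u.2.1
  choose b hb1 hb2 using hub
  have : Countable {u : V | (u : WithTop V) < v ∧ τ u < γ} := hcw.to_subtype
  have hD' := hD
  rw [c14_pow] at hD'
  obtain ⟨δ, hδ, hlow⟩ := c14_low hD' b hb1 {x | x ∈ D ∧ τ (w x) < γ} (by
    intro x hx
    refine ⟨hx.1, ⟨w x, (hw x hx.1).2.1, hx.2⟩, ?_⟩
    exact (hw x hx.1).1.trans (hb2 ⟨w x, (hw x hx.1).2.1, hx.2⟩))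
  -- the high part
  have hpos : (0 : Ordinal.{0}) < Ordinal.omega 1 := Ordinal.omega_pos 1
  have hhigh : TL {x | x ∈ D ∧ γ ≤ τ (w x)}
      (Ordinal.omega 1 ^ Ordinal.omega0 * Ordinal.omega 1) := by
    refine TL.lex ρ hρ hρ1 (fun x => τ (w x)) (fun x hx y hy hxy => hmono x hx.1 y hy.1 hxy) ?_
    intro z
    by_cases hz : γ ≤ z
    · obtain ⟨k0, hk0⟩ := hcon z hz
      refine TL.mono ?_ ?_ (hm k0)
      · intro x hx
        exact hk0 x hx.1.1 (w x) (hw x hx.1.1) hx.2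
      · rw [← Ordinal.opow_natCast]
        exact Ordinal.opow_le_opow_right hpos (Ordinal.natCast_lt_omega0 k0).le
    · refine TL.mono ?_ ?_ (hm 0)
      · intro x hx
        have h1 := hx.1.2
        have h2 : τ (w x) = z := hx.2
        rw [h2] at h1
        exact absurd h1 hz
      · rw [← Ordinal.opow_natCast]
        exact Ordinal.opow_le_opow_right hpos (Ordinal.natCast_lt_omega0 0).le
  rw [← Ordinal.opow_add_one] at hhigh
  -- together
  have hall := TL.add hlow hhigh (by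
    intro x hx y hy
    by_contra hc
    exact absurd (hmono y hy.1 x hx.1 (not_lt.1 hc)) (not_le.2 (hx.2.trans_le hy.2)))
  have hD2 : TL D (Ordinal.omega 1 ^ (Ordinal.omega0 + 1) * δ +
      Ordinal.omega 1 ^ (Ordinal.omega0 + 1)) := by
    refine TL.mono ?_ le_rfl hall
    intro x hx
    rcases lt_or_ge (τ (w x)) γ with h | h
    · exact Or.inl ⟨hx, h⟩
    · exact Or.inr ⟨hx, h⟩
  rw [TL_iff, hD', ← mul_add_one] at hD2
  have hκ : (0 : Ordinal.{0}) < Ordinal.omega 1 ^ (Ordinal.omega0 + 1) :=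
    Ordinal.opow_pos _ hpos
  exact absurd ((Ordinal.isNormal_mul_right hκ).strictMono (c14_succ hδ)) (not_lt.2 hD2)

end Ord

end Pool.Agent.CS
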