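import Mathlib
import Pool.Agent.Lib_helper80.CS.Defs
import Pool.Agent.Lib_helper80.CS.F.C12
import Pool.Agent.Lib_helper80.CS.F.C11
import Pool.Agent.Lib_helper80.CS.F.C9
import Pool.Agent.Lib_helper80.CS.F.C10
import Pool.Agent.Lib_helper80.CS.F.C13
import Pool.Agent.Lib_helper80.CS.F.C14

/-! CS block C15: the theorem from CH (helper35) -/

set_option autoImplicit false

namespace Pool.Agent.CS

open Finset



/-- a subset of type exactly `β` -/
theorem c15_sub {V : Type} [LinearOrder V] [WellFoundedLT V] (S : Set V) {β : Ordinal.{0}}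
    (h : β ≤ Ordinal.type (fun x y : S => x < y)) :
    ∃ D : Set V, D ⊆ S ∧ Ordinal.type (fun x y : D => x < y) = β := by
  have h1 : Ordinal.type (fun x y : β.ToType => x < y) ≤ Ordinal.type (fun x y : S => x < y) := by
    have : Ordinal.type (fun x y : β.ToType => x < y) = β := Ordinal.type_toType β
    rw [this]
    exact h
  obtain ⟨e⟩ := Ordinal.type_le_iff'.mp h1
  have hg : StrictMono (fun x : β.ToType => ((e x : S) : V)) := by
    intro x y hxy
    have := e.map_rel_iff.mpr hxy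
    exact this
  refine ⟨Set.range (fun x : β.ToType => ((e x : S) : V)), ?_, ?_⟩
  · rintro _ ⟨x, rfl⟩
    exact (e x).2
  · have h2 : Ordinal.type (fun x y : β.ToType => x < y) =
        Ordinal.type (fun x y : Set.range (fun x : β.ToType => ((e x : S) : V)) => x < y) :=
      Ordinal.type_eq.mpr ⟨(StrictMono.orderIso _ hg).toRelIsoLT⟩
    rw [← h2]
    exact Ordinal.type_toType β

theorem c15_mk : Cardinal.mk (Ordinal.omega 1 : Ordinal.{0}).ToType = Cardinal.aleph 1 := by
  rw [Cardinal.mk_toType, Ordinal.card_omega]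

theorem c15_cnt (z : (Ordinal.omega 1 : Ordinal.{0}).ToType) : (Set.Iio z).Countable := by
  have h : Cardinal.ord (Cardinal.mk (Ordinal.omega 1 : Ordinal.{0}).ToType) =
      Ordinal.type (fun x y : (Ordinal.omega 1 : Ordinal.{0}).ToType => x < y) := by
    rw [c15_mk, Cardinal.ord_aleph]
    exact (Ordinal.type_toType _).symm
  have h1 := Cardinal.mk_Iio_lt z h
  rw [c15_mk, ← Cardinal.succ_aleph0, Order.lt_succ_iff] at h1
  exact Cardinal.le_aleph0_iff_set_countable.mp h1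

theorem c15_bd (S : Set (Ordinal.omega 1 : Ordinal.{0}).ToType) (hS : S.Countable) :
    ∃ b, ∀ x ∈ S, x < b := by
  by_contra hne
  push Not at hne
  have hcov : (Set.univ : Set (Ordinal.omega 1 : Ordinal.{0}).ToType) ⊆
      ⋃ x ∈ S, Set.Iic x := by
    intro b _
    obtain ⟨x, hx, hbx⟩ := hne b
    exact Set.mem_biUnion hx hbx
  have hc : (⋃ x ∈ S, Set.Iic x).Countable := by
    refine hS.biUnion (fun x _ => ?_)
    rw [← Set.Iio_insert]
    exact (c15_cnt x).insert x
  have h1 : (Set.univ : Set (Ordinal.omega 1 : Ordinal.{0}).ToType).Countable := hc.mono hcov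
  rw [Set.countable_univ_iff, ← Cardinal.mk_le_aleph0_iff, c15_mk] at h1
  exact absurd h1 (not_le.mpr Cardinal.aleph0_lt_aleph_one)

/-- BLOCK C15 (uses C9 - C11, C13, C14). `Ω = (Ordinal.omega 1).ToType`; `V` embeds into `Ω` (`τ`, cardinality `≤ ℵ₁`); `s.t = τ`,
`L x` = the indices of the records, `m x = max (Milner-Rado) (card (L x))` (the sets `{m < k}` get smaller),
`c` from C10, `e z` injections of the countable sets `Iio z`. Let `D` be independent of type `≥ ω₁ ^ (ω + 2)`; pass to a subset (an initial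
segment) of type exactly `ω₁ ^ (ω + 2)`; `v` from C14; `g0 = τ u` if `v = u`, arbitrary if `v = ⊤`; `g, γ` from C9;
`z ≥ γ` from C14, `k0` from C9; `x` from C14: `z ∈ L x` (`arg_rec`), so there is
`z' ∈ L x`, `g < z' < z`, against `arg_prev`. -/
theorem ch_graph (hCH : Cardinal.continuum.{0} = Cardinal.aleph 1) (V : Type) [LinearOrder V]
    [WellFoundedLT V] (hV : Cardinal.mk V ≤ Cardinal.aleph 1) :
    ∃ G : SimpleGraph V, (¬ ∃ f : ℕ → V, Function.Injective f ∧ ∀ n, G.Adj (f n) (f (n + 1))) ∧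
      ∀ S : Set V, (∀ x ∈ S, ∀ y ∈ S, ¬ G.Adj x y) →
        Ordinal.type (fun x y : S => x < y) < Ordinal.omega 1 ^ (Ordinal.omega0 + 2) := by
  classical
  let Ω := (Ordinal.omega 1 : Ordinal.{0}).ToType
  have hΩ : Cardinal.mk Ω = Cardinal.aleph 1 := c15_mk
  have hcnt : ∀ z : Ω, (Set.Iio z).Countable := c15_cnt
  -- the embedding
  have hemb : Nonempty (V ↪ Ω) := by
    have : Cardinal.mk V ≤ Cardinal.mk Ω := by rw [hΩ]; exact hV
    exact this
  obtain ⟨τe⟩ := hemb
  let τ : V → Ω := fun x => τe x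
  have hτ : Function.Injective τ := τe.injective
  have hc : ∀ z : Ω, {x | τ x < z}.Countable := fun z =>
    (hcnt z).preimage_of_injOn (hτ.injOn)
  -- the ranks
  let ρ : Ω → Ordinal.{0} := fun z => Ordinal.typein (fun x y : Ω => x < y) z
  have hρ : StrictMono ρ := fun x y hxy =>
    (Ordinal.typein_lt_typein (fun x y : Ω => x < y)).mpr hxy
  have hρ1 : ∀ z, ρ z < Ordinal.omega 1 := fun z => Ordinal.typein_lt_self z
  obtain ⟨m0, hm0⟩ := milner_rado ρ hρ hρ1 τ hτ
  -- the system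
  obtain ⟨c, hcg⟩ := guess_exists hCH hΩ τ hc
  have he : ∀ z : Ω, ∃ f : Ω → ℕ, Set.InjOn f (Set.Iio z) := fun z =>
    Set.countable_iff_exists_injOn.mp (hcnt z)
  choose e he using he
  let L : V → Finset Ω := fun x => ((rec_finite τ hτ x).image τ).toFinset
  have hL : ∀ x z, z ∈ L x ↔ ∃ v ∈ Rec τ x, τ v = z := by
    intro x z
    show z ∈ ((rec_finite τ hτ x).image τ).toFinset ↔ _
    rw [Set.Finite.mem_toFinset]
    rfl
  let m : V → ℕ := fun x => max (m0 x) (L x).card
  let s : Sys V Ω := ⟨τ, m, L, c, e⟩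
  have hs : s.Ok := by
    refine ⟨?_, ?_, he, hc, hcg⟩
    · intro x z hz
      obtain ⟨v, hv, rfl⟩ := (hL x z).mp hz
      exact rec_le τ hv
    · intro x
      exact le_max_right _ _
  obtain ⟨out, h1, h2, h3⟩ := graph_exists c15_bd s hs
  have hm : ∀ k, TL {x | m x < k} (Ordinal.omega 1 ^ k) := by
    intro k
    have hsub : {x | m x < k} ⊆ {x | m0 x < k} := by
      intro x hx
      exact lt_of_le_of_lt (le_max_left (m0 x) (L x).card) hx
    exact TL.mono hsub le_rfl (hm0 k)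
  refine ⟨{ Adj := fun x y => x ≠ y ∧ (y ∈ out x ∨ x ∈ out y)
            symm := ⟨fun x y h => ⟨h.1.symm, h.2.symm⟩⟩
            loopless := ⟨fun x h => h.1 rfl⟩ }, ?_, ?_⟩
  · rintro ⟨f, hf, hadj⟩
    exact h1 ⟨f, hf, fun n => (hadj n).2⟩
  · intro S hS
    by_contra hne
    push Not at hne
    obtain ⟨D, hDS, hD⟩ := c15_sub S hne
    have hDi : ∀ x ∈ D, ∀ y ∈ D, y ∉ out x := by
      intro x hx y hy hyx
      refine hS x (hDS hx) y (hDS hy) ⟨?_, Or.inl hyx⟩
      intro hxy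
      subst hxy
      exact h2 x hyx
    obtain ⟨v, hv⟩ := big_piece hcnt ρ hρ hρ1 τ hτ m hm D hD
    have hg0 : ∃ g0 : Ω, ∀ u : V, v = (u : WithTop V) → τ u ≤ g0 := by
      rcases v with _ | u
      · have hne : Nonempty Ω := by
          rw [← Cardinal.mk_ne_zero_iff, hΩ]
          exact (Cardinal.aleph_pos 1).ne'
        obtain ⟨g0⟩ := hne
        exact ⟨g0, fun u hu => absurd hu WithTop.top_ne_coe⟩
      · exact ⟨τ u, fun u' hu' => by rw [WithTop.coe_injective hu']⟩
    obtain ⟨g0, hg0⟩ := hg0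
    obtain ⟨g, hg, γ, hγ⟩ := h3 D hDi g0
    obtain ⟨z, hz, hz'⟩ := hv γ
    obtain ⟨k0, hk0⟩ := hγ z hz
    obtain ⟨x, hxD, w, hw, hwz, hk⟩ := hz' k0
    obtain ⟨z', hz'L, hgz, hzz⟩ := hk0 x hxD hk ((hL x z).mpr ⟨w, arg_rec τ hw, hwz⟩)
    obtain ⟨v', hv', hv'z⟩ := (hL x z').mp hz'L
    obtain ⟨u, hu, hu'⟩ := arg_prev τ hw hv' (by rw [hv'z, hwz]; exact hzz)
    have h5 : z' ≤ g := by
      rw [← hv'z]
      exact (hu'.trans (hg0 u hu)).trans hg
    exact absurd hgz (not_lt.mpr h5)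

end Pool.Agent.CS
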